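import Mathlib
import Pool.Agent.H162R2.AG.K1
import Pool.Agent.H162R2.AG.K2

/-!
Galvin's theorem with every colour used up to `m` times at every vertex on each side.
-/

set_option autoImplicit false

namespace Pool.Agent.TH738.LR

open Finset Pool.Agent.H162R2.AG

variable {V : Type} [Fintype V] [DecidableEq V]

theorem galvin (E : Finset (V × V)) (D : ℕ)
    (ho : ∀ u, (E.filter (fun e => e.1 = u)).card ≤ D)
    (hi : ∀ u, (E.filter (fun e => e.2 = u)).card ≤ D)
    (L : V × V → Finset ℕ) (hL : ∀ e ∈ E, D ≤ (L e).card) :
    ∃ col : V × V → ℕ, (∀ e ∈ E, col e ∈ L e) ∧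
      ∀ e ∈ E, ∀ e' ∈ E, e ≠ e' → (e.1 = e'.1 ∨ e.2 = e'.2) → col e ≠ col e' := by
  classical
  obtain ⟨c, hc1, hc2⟩ := K1 V E D ho hi
  exact K2 V E D 0 0 c (fun i => i) (fun _ => False) L hc1 hc2
    (fun i _ => Nat.zero_le _) (fun u i => by simp) (fun u i => by simp)
    (fun e he _ => by simpa using hL e he) (fun e _ h => absurd h id)

theorem multi (E : Finset (V × V)) (k m : ℕ)
    (ho : ∀ u, (E.filter (fun e => e.1 = u)).card ≤ k * m)
    (hi : ∀ u, (E.filter (fun e => e.2 = u)).card ≤ k * m)
    (L : V × V → Finset ℕ) (hL : ∀ e ∈ E, k ≤ (L e).card) :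
    ∃ col : V × V → ℕ, (∀ e ∈ E, col e ∈ L e) ∧
      (∀ u a, (E.filter (fun e => e.1 = u ∧ col e = a)).card ≤ m) ∧
      (∀ u a, (E.filter (fun e => e.2 = u ∧ col e = a)).card ≤ m) := by
  classical
  rcases Nat.eq_zero_or_pos m with hm | hm
  · subst hm
    have hE : E = ∅ := by
      rw [Finset.eq_empty_iff_forall_notMem]
      intro e he
      have h1 := ho e.1
      have h2 : e ∈ E.filter (fun f => f.1 = e.1) := by simp [he]
      have h3 := Finset.card_pos.2 ⟨e, h2⟩
      omega
    subst hE
    exact ⟨fun _ => 0, by simp, by simp, by simp⟩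
  · let L' : V × V → Finset ℕ := fun e => (L e ×ˢ range m).image (fun p => p.1 * m + p.2)
    have hinj : Set.InjOn (fun p : ℕ × ℕ => p.1 * m + p.2) {p | p.2 < m} := by
      rintro ⟨a, i⟩ ha ⟨b, j⟩ hb h
      simp only [Set.mem_setOf_eq] at ha hb
      simp only at h
      have h1 : a = b := by
        have e1 : (a * m + i) / m = a := by
          rw [mul_comm, Nat.mul_add_div hm, Nat.div_eq_of_lt ha, add_zero]
        have e2 : (b * m + j) / m = b := by
          rw [mul_comm, Nat.mul_add_div hm, Nat.div_eq_of_lt hb, add_zero]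
        rw [← e1, ← e2, h]
      subst h1
      have : i = j := by omega
      rw [this]
    have hL' : ∀ e ∈ E, k * m ≤ (L' e).card := by
      intro e he
      have : (L' e).card = (L e ×ˢ range m).card := by
        apply Finset.card_image_of_injOn
        intro p hp q hq h
        refine hinj ?_ ?_ h
        · simp at hp; exact hp.2
        · simp at hq; exact hq.2
      rw [this, card_product, card_range]
      exact Nat.mul_le_mul_right _ (hL e he)
    obtain ⟨col, h1, h2⟩ := galvin E (k * m) ho hi L' hL'
    have hdiv : ∀ e ∈ E, col e / m ∈ L e := by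
      intro e he
      have := h1 e he
      simp only [L', mem_image, mem_product, mem_range, Prod.exists] at this
      obtain ⟨a, i, ⟨ha, hi⟩, h3⟩ := this
      rw [← h3, mul_comm, Nat.mul_add_div hm, Nat.div_eq_of_lt hi, add_zero]
      exact ha
    have hcount : ∀ (S : Finset (V × V)) (a : ℕ), (∀ e ∈ S, col e / m = a) →
        (∀ e ∈ S, ∀ f ∈ S, e ≠ f → col e ≠ col f) → S.card ≤ m := by
      intro S a hS hSi
      have : S.card ≤ (range m).card := by
        apply Finset.card_le_card_of_injOn (fun e => col e % m)
        · intro e _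
          simp only [coe_range, Set.mem_Iio]
          exact Nat.mod_lt _ hm
        · intro e he f hf h
          by_contra hne
          apply hSi e he f hf hne
          have e1 := Nat.div_add_mod (col e) m
          have e2 := Nat.div_add_mod (col f) m
          simp only at h
          rw [← e1, ← e2, hS e he, hS f hf, h]
      simpa using this
    refine ⟨fun e => col e / m, hdiv, ?_, ?_⟩
    · intro u a
      apply hcount _ a
      · intro e he; exact (mem_filter.1 he).2.2
      · intro e he f hf hne
        rw [mem_filter] at he hf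
        exact h2 e he.1 f hf.1 hne (Or.inl (by rw [he.2.1, hf.2.1]))
    · intro u a
      apply hcount _ a
      · intro e he; exact (mem_filter.1 he).2.2
      · intro e he f hf hne
        rw [mem_filter] at he hf
        exact h2 e he.1 f hf.1 hne (Or.inr (by rw [he.2.1, hf.2.1]))

end Pool.Agent.TH738.LR
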