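import Mathlib
import Pool.Agent.TH738.LR.Core

set_option autoImplicit false

namespace Pool.Agent.TH738.LR

open Finset

/-- Balanced orientation of a regular multigraph of even degree (the lemma `orient` of the
starting file `W111/LAR/Dec`, with its proof). -/
theorem orient {V E : Type} [Fintype V] [DecidableEq V] [Fintype E] [DecidableEq E] (p q : E → V)
    (k : ℕ) (h : ∀ v, (univ.filter (fun e => p e = v)).card +
      (univ.filter (fun e => q e = v)).card = 2 * k) :
    ∃ t : E → Bool, (∀ v, (univ.filter (fun e => (if t e then p e else q e) = v)).card = k) ∧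
      ∀ v, (univ.filter (fun e => (if t e then q e else p e) = v)).card = k := by
  classical
  let T : E → Finset (V × Fin k) := fun e => ({p e, q e} : Finset V) ×ˢ univ
  have hE : ∀ (s : Finset E) (W : Finset V), (∀ e ∈ s, p e ∈ W ∧ q e ∈ W) →
      s.card ≤ W.card * k := by
    intro s W hW
    have h1 : s.card = ∑ v ∈ W, (s.filter (fun e => p e = v)).card :=
      card_eq_sum_card_fiberwise (fun e he => (hW e he).1)
    have h2 : s.card = ∑ v ∈ W, (s.filter (fun e => q e = v)).card :=
      card_eq_sum_card_fiberwise (fun e he => (hW e he).2)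
    have h3 : ∑ v ∈ W, ((s.filter (fun e => p e = v)).card +
        (s.filter (fun e => q e = v)).card) ≤ ∑ v ∈ W, 2 * k := by
      refine sum_le_sum fun v _ => ?_
      rw [← h v]
      exact add_le_add (card_le_card (filter_subset_filter _ (subset_univ _)))
        (card_le_card (filter_subset_filter _ (subset_univ _)))
    rw [sum_add_distrib, ← h1, ← h2, sum_const, smul_eq_mul] at h3
    have h4 : W.card * (2 * k) = 2 * (W.card * k) := by ring
    omega
  have hall : ∀ s : Finset E, s.card ≤ (s.biUnion T).card := by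
    intro s
    have h1 : s.biUnion T = (s.biUnion (fun e => ({p e, q e} : Finset V))) ×ˢ univ := by
      ext ⟨v, i⟩
      simp [T]
    rw [h1, card_product, card_univ, Fintype.card_fin]
    refine hE s _ fun e he => ⟨?_, ?_⟩
    · exact mem_biUnion.2 ⟨e, he, by simp⟩
    · exact mem_biUnion.2 ⟨e, he, by simp⟩
  obtain ⟨f, hf, hfT⟩ := (Finset.all_card_le_biUnion_card_iff_exists_injective T).1 hall
  have htot : Fintype.card E = Fintype.card V * k := by
    have h1 : (univ : Finset E).card = ∑ v ∈ (univ : Finset V), (univ.filter (fun e => p e = v)).card :=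
      card_eq_sum_card_fiberwise (fun e _ => mem_univ _)
    have h2 : (univ : Finset E).card = ∑ v ∈ (univ : Finset V), (univ.filter (fun e => q e = v)).card :=
      card_eq_sum_card_fiberwise (fun e _ => mem_univ _)
    have h3 : ∑ v ∈ (univ : Finset V), ((univ.filter (fun e => p e = v)).card +
        (univ.filter (fun e => q e = v)).card) = ∑ v ∈ (univ : Finset V), 2 * k :=
      sum_congr rfl fun v _ => h v
    rw [sum_add_distrib, ← h1, ← h2, sum_const, smul_eq_mul, card_univ, card_univ] at h3
    have h4 : Fintype.card V * (2 * k) = 2 * (Fintype.card V * k) := by ring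
    omega
  have hbij : Function.Bijective f :=
    (Fintype.bijective_iff_injective_and_card f).2 ⟨hf, by
      rw [htot, Fintype.card_prod, Fintype.card_fin]⟩
  have hmem : ∀ e, (f e).1 = p e ∨ (f e).1 = q e := by
    intro e
    have := hfT e
    simp only [T, mem_product, mem_insert, mem_singleton, mem_univ, and_true] at this
    exact this
  refine ⟨fun e => decide ((f e).1 = p e), ?_⟩
  have htail : ∀ e, (if decide ((f e).1 = p e) = true then p e else q e) = (f e).1 := by
    intro e
    by_cases h1 : (f e).1 = p e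
    · simp [h1]
    · rcases hmem e with h2 | h2
      · exact absurd h2 h1
      · rw [if_neg (by simpa using h1), h2]
  have h1 : ∀ v, (univ.filter (fun e => (if decide ((f e).1 = p e) = true then p e else q e)
      = v)).card = k := by
    intro v
    have h2 : (univ.filter (fun e => (if decide ((f e).1 = p e) = true then p e else q e)
      = v)).card = (({v} : Finset V) ×ˢ (univ : Finset (Fin k))).card := by
      refine card_bij (fun e _ => f e) ?_ ?_ ?_
      · intro e he
        rw [mem_filter, htail] at he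
        rw [mem_product, mem_singleton]
        exact ⟨he.2, mem_univ _⟩
      · intro e _ e' _ h
        exact hf h
      · intro x hx
        obtain ⟨e, he⟩ := hbij.2 x
        refine ⟨e, ?_, he⟩
        rw [mem_filter, htail, he]
        simp only [mem_product, mem_singleton, mem_univ, and_true] at hx
        exact ⟨mem_univ _, hx⟩
    rw [h2, card_product]
    simp
  refine ⟨h1, fun v => ?_⟩
  have h2 : (univ.filter (fun e => (if decide ((f e).1 = p e) = true then p e else q e)
      = v)).card + (univ.filter (fun e => (if decide ((f e).1 = p e) = true then q e else p e)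
      = v)).card = 2 * k := by
    rw [← h v]
    simp only [card_filter]
    rw [← sum_add_distrib, ← sum_add_distrib]
    refine sum_congr rfl fun e _ => ?_
    by_cases h3 : (f e).1 = p e
    · simp [h3]
    · simp [h3, add_comm]
  have h5 := h1 v
  have h6 : (univ.filter (fun e => (if decide ((f e).1 = p e) = true then q e else p e)
      = v)).card = k := by omega
  exact h6

variable {V : Type} [Fintype V] [DecidableEq V]

theorem combine (EH EF : Finset (V × V)) (k m mF : ℕ)
    (hloop : ∀ v, (v, v) ∉ EF)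
    (htour : ∀ v w, v ≠ w → ((v, w) ∈ EH ∪ EF ↔ (w, v) ∉ EH ∪ EF))
    (hdis : Disjoint EH EF)
    (hHo : ∀ u, (EH.filter (fun e => e.1 = u)).card ≤ k * m)
    (hHi : ∀ u, (EH.filter (fun e => e.2 = u)).card ≤ k * m)
    (hFo : ∀ u, (EF.filter (fun e => e.1 = u)).card ≤ k * mF)
    (hFi : ∀ u, (EF.filter (fun e => e.2 = u)).card ≤ k * mF)
    (hFs : ∀ u, (EF.filter (fun e => e.1 = u)) = ∅ ∨ (EF.filter (fun e => e.2 = u)) = ∅)
    (L : V → V → Finset ℕ) (hL : ∀ v w, v ≠ w → L v w = L w v ∧ (L v w).card = k)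
    (hHl : ∀ v, (v, v) ∉ EH) :
    ∃ c : V → V → ℕ, (∀ v w, v ≠ w → c v w = c w v ∧ c v w ∈ L v w) ∧
      ∀ (v : V) (a : ℕ) (S : Finset V), v ∉ S → (∀ w ∈ S, c v w = a) → S.card ≤ 2 * m + mF := by
  classical
  have hne : ∀ E : Finset (V × V), (∀ v, (v, v) ∉ E) → ∀ e ∈ E, e.1 ≠ e.2 := by
    intro E hE e he h
    apply hE e.1
    have : e = (e.1, e.1) := by ext <;> simp [h]
    rw [← this]; exact he
  obtain ⟨cH, h1, h2, h3⟩ := multi EH k m hHo hHi (fun e => L e.1 e.2)
    (fun e he => (hL e.1 e.2 (hne EH hHl e he)).2.ge)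
  obtain ⟨cF, h4, h5, h6⟩ := multi EF k mF hFo hFi (fun e => L e.1 e.2)
    (fun e he => (hL e.1 e.2 (hne EF hloop e he)).2.ge)
  let c : V → V → ℕ := fun v w => if (v, w) ∈ EH then cH (v, w) else
    if (w, v) ∈ EH then cH (w, v) else if (v, w) ∈ EF then cF (v, w) else cF (w, v)
  have hcase : ∀ v w, v ≠ w → ((v, w) ∈ EH ∧ (w, v) ∉ EH ∧ (v, w) ∉ EF ∧ (w, v) ∉ EF) ∨
      ((v, w) ∉ EH ∧ (w, v) ∈ EH ∧ (v, w) ∉ EF ∧ (w, v) ∉ EF) ∨
      ((v, w) ∉ EH ∧ (w, v) ∉ EH ∧ (v, w) ∈ EF ∧ (w, v) ∉ EF) ∨
      ((v, w) ∉ EH ∧ (w, v) ∉ EH ∧ (v, w) ∉ EF ∧ (w, v) ∈ EF) := by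
    intro v w hvw
    have ht := htour v w hvw
    simp only [mem_union, not_or] at ht
    have d1 : ¬ ((v, w) ∈ EH ∧ (v, w) ∈ EF) := fun h => (Finset.disjoint_left.1 hdis) h.1 h.2
    have d2 : ¬ ((w, v) ∈ EH ∧ (w, v) ∈ EF) := fun h => (Finset.disjoint_left.1 hdis) h.1 h.2
    tauto
  refine ⟨c, ?_, ?_⟩
  · intro v w hvw
    have hLs := (hL v w hvw).1
    rcases hcase v w hvw with ⟨a1, a2, a3, a4⟩ | ⟨a1, a2, a3, a4⟩ | ⟨a1, a2, a3, a4⟩ |
      ⟨a1, a2, a3, a4⟩
    · have e1 : c v w = cH (v, w) := by simp [c, a1]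
      have e2 : c w v = cH (v, w) := by simp [c, a1, a2]
      rw [e1, e2]; exact ⟨rfl, h1 _ a1⟩
    · have e1 : c v w = cH (w, v) := by simp [c, a1, a2]
      have e2 : c w v = cH (w, v) := by simp [c, a2]
      rw [e1, e2]; exact ⟨rfl, by rw [hLs]; exact h1 _ a2⟩
    · have e1 : c v w = cF (v, w) := by simp [c, a1, a2, a3]
      have e2 : c w v = cF (v, w) := by simp [c, a1, a2, a4]
      rw [e1, e2]; exact ⟨rfl, h4 _ a3⟩
    · have e1 : c v w = cF (w, v) := by simp [c, a1, a2, a3]
      have e2 : c w v = cF (w, v) := by simp [c, a1, a2, a4]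
      rw [e1, e2]; exact ⟨rfl, by rw [hLs]; exact h4 _ a4⟩
  · intro v a S hvS hS
    have hsub : S ⊆ ((EH.filter (fun e => e.1 = v ∧ cH e = a)).image Prod.snd ∪
        (EH.filter (fun e => e.2 = v ∧ cH e = a)).image Prod.fst) ∪
        ((EF.filter (fun e => e.1 = v ∧ cF e = a)).image Prod.snd ∪
        (EF.filter (fun e => e.2 = v ∧ cF e = a)).image Prod.fst) := by
      intro w hw
      have hvw : v ≠ w := fun h => hvS (by rw [h]; exact hw)
      have hc := hS w hw
      simp only [mem_union, mem_image, mem_filter, Prod.exists, exists_and_right, exists_eq_right]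
      rcases hcase v w hvw with ⟨a1, a2, a3, a4⟩ | ⟨a1, a2, a3, a4⟩ | ⟨a1, a2, a3, a4⟩ |
        ⟨a1, a2, a3, a4⟩
      · have e1 : c v w = cH (v, w) := by simp [c, a1]
        left; left; exact ⟨v, a1, rfl, by rw [← e1]; exact hc⟩
      · have e1 : c v w = cH (w, v) := by simp [c, a1, a2]
        left; right; exact ⟨v, a2, rfl, by rw [← e1]; exact hc⟩
      · have e1 : c v w = cF (v, w) := by simp [c, a1, a2, a3]
        right; left; exact ⟨v, a3, rfl, by rw [← e1]; exact hc⟩
      · have e1 : c v w = cF (w, v) := by simp [c, a1, a2, a3]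
        right; right; exact ⟨v, a4, rfl, by rw [← e1]; exact hc⟩
    have hF : ((EF.filter (fun e => e.1 = v ∧ cF e = a)).image Prod.snd ∪
        (EF.filter (fun e => e.2 = v ∧ cF e = a)).image Prod.fst).card ≤ mF := by
      rcases hFs v with h | h
      · have h' : EF.filter (fun e => e.1 = v ∧ cF e = a) = ∅ := by
          rw [Finset.eq_empty_iff_forall_notMem] at h ⊢
          intro e he
          rw [mem_filter] at he
          exact h e (mem_filter.2 ⟨he.1, he.2.1⟩)
        rw [h', image_empty, empty_union]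
        exact card_image_le.trans (h6 v a)
      · have h' : EF.filter (fun e => e.2 = v ∧ cF e = a) = ∅ := by
          rw [Finset.eq_empty_iff_forall_notMem] at h ⊢
          intro e he
          rw [mem_filter] at he
          exact h e (mem_filter.2 ⟨he.1, he.2.1⟩)
        rw [h', image_empty, union_empty]
        exact card_image_le.trans (h5 v a)
    have hH : ((EH.filter (fun e => e.1 = v ∧ cH e = a)).image Prod.snd ∪
        (EH.filter (fun e => e.2 = v ∧ cH e = a)).image Prod.fst).card ≤ 2 * m := by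
      refine (card_union_le _ _).trans ?_
      have g1 := (card_image_le (s := EH.filter (fun e => e.1 = v ∧ cH e = a))
        (f := Prod.snd)).trans (h2 v a)
      have g2 := (card_image_le (s := EH.filter (fun e => e.2 = v ∧ cH e = a))
        (f := Prod.fst)).trans (h3 v a)
      omega
    exact (card_le_card hsub).trans ((card_union_le _ _).trans (add_le_add hH hF))

theorem exists_EH (EF : Finset (V × V)) (d f : ℕ)
    (hloop : ∀ v, (v, v) ∉ EF)
    (hanti : ∀ v w, (v, w) ∈ EF → (w, v) ∉ EF)
    (hdeg : ∀ v, (EF.filter (fun e => e.1 = v)).card + (EF.filter (fun e => e.2 = v)).card = f)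
    (hcard : Fintype.card V = f + 2 * d + 1) :
    ∃ EH : Finset (V × V), (∀ u, (EH.filter (fun e => e.1 = u)).card ≤ d) ∧
      (∀ u, (EH.filter (fun e => e.2 = u)).card ≤ d) ∧
      (∀ v w, (v, w) ∈ EH → ((v, w) ∉ EF ∧ (w, v) ∉ EF ∧ v ≠ w)) ∧
      ∀ v w, v ≠ w → (v, w) ∉ EF → (w, v) ∉ EF → ((v, w) ∈ EH ↔ (w, v) ∉ EH) := by
  classical
  obtain ⟨ι, hι⟩ : ∃ ι : V → ℕ, Function.Injective ι :=
    ⟨fun v => (Fintype.equivFin V v : ℕ), fun v w h => (Fintype.equivFin V).injective (Fin.ext h)⟩
  let P : Finset (V × V) := univ.filter (fun e => ι e.1 < ι e.2 ∧ e ∉ EF ∧ (e.2, e.1) ∉ EF)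
  let E : Type := {e : V × V // e ∈ P}
  let p : E → V := fun e => e.1.1
  let q : E → V := fun e => e.1.2
  have hp : ∀ v, (univ.filter (fun e : E => p e = v)).card =
      (univ.filter (fun w => ι v < ι w ∧ (v, w) ∉ EF ∧ (w, v) ∉ EF)).card := by
    intro v
    refine Finset.card_bij (fun e _ => e.1.2) ?_ ?_ ?_
    · rintro ⟨⟨x, y⟩, he⟩ h
      simp only [mem_filter, mem_univ, true_and, P, p] at he h ⊢
      subst h; exact he
    · rintro ⟨⟨x, y⟩, he⟩ h ⟨⟨x', y'⟩, he'⟩ h' hh
      simp only [mem_filter, mem_univ, true_and, p] at h h' hh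
      subst h; subst h'; subst hh; rfl
    · intro w hw
      simp only [mem_filter, mem_univ, true_and] at hw
      exact ⟨⟨(v, w), by simp only [P, mem_filter, mem_univ, true_and]; exact hw⟩,
        by simp [p], rfl⟩
  have hq : ∀ v, (univ.filter (fun e : E => q e = v)).card =
      (univ.filter (fun w => ι w < ι v ∧ (v, w) ∉ EF ∧ (w, v) ∉ EF)).card := by
    intro v
    refine Finset.card_bij (fun e _ => e.1.1) ?_ ?_ ?_
    · rintro ⟨⟨x, y⟩, he⟩ h
      simp only [mem_filter, mem_univ, true_and, P, q] at he h ⊢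
      subst h; exact ⟨he.1, he.2.2, he.2.1⟩
    · rintro ⟨⟨x, y⟩, he⟩ h ⟨⟨x', y'⟩, he'⟩ h' hh
      simp only [mem_filter, mem_univ, true_and, q] at h h' hh
      subst h; subst h'; subst hh; rfl
    · intro w hw
      simp only [mem_filter, mem_univ, true_and] at hw
      exact ⟨⟨(w, v), by simp only [P, mem_filter, mem_univ, true_and]; exact ⟨hw.1, hw.2.2, hw.2.1⟩⟩,
        by simp [q], rfl⟩
  have hFo : ∀ v, (EF.filter (fun e => e.1 = v)).card =
      (univ.filter (fun w => (v, w) ∈ EF)).card := by
    intro v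
    refine Finset.card_bij (fun e _ => e.2) ?_ ?_ ?_
    · rintro ⟨x, y⟩ h
      simp only [mem_filter, mem_univ, true_and] at h ⊢
      rw [← h.2]; exact h.1
    · rintro ⟨x, y⟩ h ⟨x', y'⟩ h' hh
      simp only [mem_filter] at h h' hh
      rw [h.2, h'.2, hh]
    · intro w hw
      simp only [mem_filter, mem_univ, true_and] at hw
      exact ⟨(v, w), by simp [hw], rfl⟩
  have hFi : ∀ v, (EF.filter (fun e => e.2 = v)).card =
      (univ.filter (fun w => (w, v) ∈ EF)).card := by
    intro v
    refine Finset.card_bij (fun e _ => e.1) ?_ ?_ ?_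
    · rintro ⟨x, y⟩ h
      simp only [mem_filter, mem_univ, true_and] at h ⊢
      rw [← h.2]; exact h.1
    · rintro ⟨x, y⟩ h ⟨x', y'⟩ h' hh
      simp only [mem_filter] at h h' hh
      rw [h.2, h'.2, hh]
    · intro w hw
      simp only [mem_filter, mem_univ, true_and] at hw
      exact ⟨(w, v), by simp [hw], rfl⟩
  have hsum : ∀ v, (univ.filter (fun e : E => p e = v)).card +
      (univ.filter (fun e : E => q e = v)).card = 2 * d := by
    intro v
    have hd := hdeg v
    rw [hFo, hFi] at hd
    rw [hp, hq]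
    have hu : (univ : Finset V) = {v} ∪ (((univ.filter (fun w => (v, w) ∈ EF)) ∪
        (univ.filter (fun w => (w, v) ∈ EF))) ∪
        ((univ.filter (fun w => ι v < ι w ∧ (v, w) ∉ EF ∧ (w, v) ∉ EF)) ∪
        (univ.filter (fun w => ι w < ι v ∧ (v, w) ∉ EF ∧ (w, v) ∉ EF)))) := by
      ext w
      simp only [mem_univ, mem_union, mem_singleton, mem_filter, true_and, true_iff]
      rcases lt_trichotomy (ι w) (ι v) with h | h | h
      · tauto
      · left; exact hι h
      · tauto
    have hc : Fintype.card V = 1 + (((univ.filter (fun w => (v, w) ∈ EF)).card +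
        (univ.filter (fun w => (w, v) ∈ EF)).card) +
        ((univ.filter (fun w => ι v < ι w ∧ (v, w) ∉ EF ∧ (w, v) ∉ EF)).card +
        (univ.filter (fun w => ι w < ι v ∧ (v, w) ∉ EF ∧ (w, v) ∉ EF)).card)) := by
      rw [← Finset.card_univ]
      conv_lhs => rw [hu]
      rw [card_union_of_disjoint, card_union_of_disjoint, card_union_of_disjoint,
        card_union_of_disjoint, card_singleton]
      · rw [Finset.disjoint_left]
        intro w h1 h2
        simp only [mem_filter, mem_univ, true_and] at h1 h2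
        exact absurd (h1.1.trans h2.1) (lt_irrefl _)
      · rw [Finset.disjoint_left]
        intro w h1 h2
        simp only [mem_filter, mem_univ, true_and] at h1 h2
        exact hanti _ _ h1 h2
      · rw [Finset.disjoint_left]
        intro w h1 h2
        simp only [mem_filter, mem_univ, true_and, mem_union] at h1 h2
        tauto
      · rw [Finset.disjoint_left]
        intro w h1 h2
        simp only [mem_filter, mem_univ, true_and, mem_union, mem_singleton] at h1 h2
        subst h1
        have := hloop w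
        rcases h2 with (h | h) | (h | h)
        · exact this h
        · exact this h
        · exact absurd h.1 (lt_irrefl _)
        · exact absurd h.1 (lt_irrefl _)
    omega
  obtain ⟨t, ht1, ht2⟩ := orient p q d hsum
  let EH : Finset (V × V) := univ.image (fun e : E => if t e then (p e, q e) else (q e, p e))
  have hinj : Function.Injective (fun e : E => if t e then (p e, q e) else (q e, p e)) := by
    rintro ⟨⟨x, y⟩, he⟩ ⟨⟨x', y'⟩, he'⟩ h
    simp only [P, mem_filter, mem_univ, true_and] at he he'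
    simp only [p, q] at h
    split_ifs at h <;> simp only [Prod.mk.injEq] at h <;> obtain ⟨h1, h2⟩ := h
    · subst h1; subst h2; rfl
    · subst h1; subst h2; exact absurd (he.1.trans he'.1) (lt_irrefl _)
    · subst h1; subst h2; exact absurd (he.1.trans he'.1) (lt_irrefl _)
    · subst h1; subst h2; rfl
  have hHo : ∀ u, (EH.filter (fun e => e.1 = u)).card ≤ d := by
    intro u
    rw [← ht1 u]
    refine le_of_eq_of_le (b := ((univ.filter (fun e : E => (if t e then p e else q e) = u)).image
      (fun e : E => if t e then (p e, q e) else (q e, p e))).card) ?_ card_image_le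
    congr 1
    ext e
    simp only [EH, mem_filter, mem_image, mem_univ, true_and]
    constructor
    · rintro ⟨⟨x, rfl⟩, hu⟩
      refine ⟨x, ?_, rfl⟩
      rw [← hu]; split_ifs <;> rfl
    · rintro ⟨x, hx, rfl⟩
      refine ⟨⟨x, rfl⟩, ?_⟩
      rw [← hx]; split_ifs <;> rfl
  have hHi : ∀ u, (EH.filter (fun e => e.2 = u)).card ≤ d := by
    intro u
    rw [← ht2 u]
    refine le_of_eq_of_le (b := ((univ.filter (fun e : E => (if t e then q e else p e) = u)).image
      (fun e : E => if t e then (p e, q e) else (q e, p e))).card) ?_ card_image_le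
    congr 1
    ext e
    simp only [EH, mem_filter, mem_image, mem_univ, true_and]
    constructor
    · rintro ⟨⟨x, rfl⟩, hu⟩
      refine ⟨x, ?_, rfl⟩
      rw [← hu]; split_ifs <;> rfl
    · rintro ⟨x, hx, rfl⟩
      refine ⟨⟨x, rfl⟩, ?_⟩
      rw [← hx]; split_ifs <;> rfl
  have hmemH : ∀ v w, (v, w) ∈ EH → ((v, w) ∉ EF ∧ (w, v) ∉ EF ∧ v ≠ w) := by
    intro v w h
    simp only [EH, mem_image, mem_univ, true_and] at h
    obtain ⟨⟨⟨x, y⟩, he⟩, h⟩ := h
    simp only [P, mem_filter, mem_univ, true_and] at he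
    simp only [p, q] at h
    split_ifs at h <;> simp only [Prod.mk.injEq] at h <;> obtain ⟨h1, h2⟩ := h <;> subst h1 <;>
      subst h2
    · exact ⟨he.2.1, he.2.2, fun h => by rw [h] at he; exact absurd he.1 (lt_irrefl _)⟩
    · exact ⟨he.2.2, he.2.1, fun h => by rw [h] at he; exact absurd he.1 (lt_irrefl _)⟩
  have hH1 : ∀ v w, v ≠ w → (v, w) ∉ EF → (w, v) ∉ EF → ((v, w) ∈ EH ↔ (w, v) ∉ EH) := by
    -- enough for `ι v < ι w`
    have key : ∀ v w, ι v < ι w → (v, w) ∉ EF → (w, v) ∉ EF → ((v, w) ∈ EH ↔ (w, v) ∉ EH) := by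
      intro v w hlt h1 h2
      let e : E := ⟨(v, w), by simp only [P, mem_filter, mem_univ, true_and]; exact ⟨hlt, h1, h2⟩⟩
      have huniq : ∀ x y, (x, y) ∈ EH → (x = v ∧ y = w ∨ x = w ∧ y = v) →
          (x, y) = (if t e then (p e, q e) else (q e, p e)) := by
        intro x y hxy hor
        simp only [EH, mem_image, mem_univ, true_and] at hxy
        obtain ⟨e', he'⟩ := hxy
        have : e' = e := by
          rcases e' with ⟨⟨x', y'⟩, hh⟩
          simp only [P, mem_filter, mem_univ, true_and] at hh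
          simp only [p, q] at he'
          apply Subtype.ext
          show (x', y') = (v, w)
          split_ifs at he' <;> simp only [Prod.mk.injEq] at he' <;> obtain ⟨g1, g2⟩ := he' <;>
            subst g1 <;> subst g2 <;> rcases hor with ⟨g3, g4⟩ | ⟨g3, g4⟩ <;> subst g3 <;>
            subst g4 <;> first | rfl | exact absurd (hlt.trans hh.1) (lt_irrefl _)
        rw [← this]; exact he'.symm
      have hin : (if t e then (p e, q e) else (q e, p e)) ∈ EH := by
        simp only [EH, mem_image, mem_univ, true_and]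
        exact ⟨e, rfl⟩
      have hvw : v ≠ w := fun h => by rw [h] at hlt; exact absurd hlt (lt_irrefl _)
      by_cases ht : t e
      · rw [if_pos ht] at hin
        have : (v, w) ∈ EH := hin
        refine ⟨fun _ h' => ?_, fun _ => this⟩
        have := huniq w v h' (Or.inr ⟨rfl, rfl⟩)
        rw [if_pos ht] at this
        have g : (w, v) = (v, w) := this
        exact hvw (Prod.ext_iff.1 g).2
      · rw [if_neg ht] at hin
        have : (w, v) ∈ EH := hin
        refine ⟨fun h' => ?_, fun h' => absurd this h'⟩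
        have := huniq v w h' (Or.inl ⟨rfl, rfl⟩)
        rw [if_neg ht] at this
        have g : (v, w) = (w, v) := this
        exact absurd (Prod.ext_iff.1 g).1 hvw
    intro v w hvw h1 h2
    rcases lt_trichotomy (ι v) (ι w) with h | h | h
    · exact key v w h h1 h2
    · exact absurd (hι h) hvw
    · have := key w v h h2 h1
      tauto
  exact ⟨EH, hHo, hHi, hmemH, hH1⟩

/-- The colouring of a complete graph on `f + 2 k m + 1` vertices from lists of size `k`. -/
theorem good (EF : Finset (V × V)) (k m mF f : ℕ)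
    (hloop : ∀ v, (v, v) ∉ EF)
    (hanti : ∀ v w, (v, w) ∈ EF → (w, v) ∉ EF)
    (hdeg : ∀ v, (EF.filter (fun e => e.1 = v)).card + (EF.filter (fun e => e.2 = v)).card = f)
    (hcard : Fintype.card V = f + 2 * (k * m) + 1)
    (hf : f ≤ k * mF)
    (hFs : ∀ u, (EF.filter (fun e => e.1 = u)) = ∅ ∨ (EF.filter (fun e => e.2 = u)) = ∅)
    (L : V → V → Finset ℕ) (hL : ∀ v w, v ≠ w → L v w = L w v ∧ (L v w).card = k) :
    ∃ c : V → V → ℕ, (∀ v w, v ≠ w → c v w = c w v ∧ c v w ∈ L v w) ∧
      ∀ (v : V) (a : ℕ) (S : Finset V), v ∉ S → (∀ w ∈ S, c v w = a) → S.card ≤ 2 * m + mF := by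
  classical
  obtain ⟨EH, hHo, hHi, hmemH, hH1⟩ := exists_EH EF (k * m) f hloop hanti hdeg hcard
  refine combine EH EF k m mF hloop ?_ ?_ hHo hHi ?_ ?_ hFs L hL ?_
  · intro v w hvw
    have g1 := hH1 v w hvw
    have g2 := hmemH v w
    have g3 := hmemH w v
    have g4 := hanti v w
    have g5 := hanti w v
    simp only [mem_union, not_or]
    by_cases x1 : (v, w) ∈ EF
    · have x2 : (w, v) ∉ EF := g4 x1
      have x3 : (w, v) ∉ EH := fun h => (g3 h).2.1 x1
      exact ⟨fun _ => ⟨x3, x2⟩, fun _ => Or.inr x1⟩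
    · by_cases x2 : (w, v) ∈ EF
      · have x3 : (v, w) ∉ EH := fun h => (g2 h).2.1 x2
        exact ⟨fun h => (h.elim (fun h => absurd h x3) (fun h => absurd h x1)),
          fun h => absurd x2 h.2⟩
      · have x4 := g1 x1 x2
        exact ⟨fun h => ⟨x4.1 (h.resolve_right x1), x2⟩, fun h => Or.inl (x4.2 h.1)⟩
  · rw [Finset.disjoint_left]
    rintro ⟨v, w⟩ h1 h2
    exact (hmemH v w h1).1 h2
  · intro u
    have := hdeg u
    omega
  · intro u
    have := hdeg u
    omega
  · intro v h
    exact (hmemH v v h).2.2 rfl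

end Pool.Agent.TH738.LR
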