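import Mathlib
import Pool.Agent.TH738.LR.Comb

set_option autoImplicit false

namespace Pool.Agent.TH738.LR

open Finset

/-- Every assignment of lists of size `k` to the pairs of different elements of `V` has a
symmetric colouring in which every colour occurs at most `s` times at every element. -/
def GoodV (V : Type) (k s : ℕ) : Prop :=
  ∀ L : V → V → Finset ℕ, (∀ v w, v ≠ w → L v w = L w v ∧ (L v w).card = k) →
    ∃ c : V → V → ℕ, (∀ v w, v ≠ w → c v w = c w v ∧ c v w ∈ L v w) ∧
      ∀ (v : V) (a : ℕ) (S : Finset V), v ∉ S → (∀ w ∈ S, c v w = a) → S.card ≤ s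

theorem GoodV.embed {U V : Type} {k s : ℕ} (h : GoodV V k s) (ι : U ↪ V) : GoodV U k s := by
  classical
  intro L hL
  let g : V → Option U := fun x => if h : ∃ v, ι v = x then some h.choose else none
  have hg : ∀ v, g (ι v) = some v := by
    intro v
    have hex : ∃ w, ι w = ι v := ⟨v, rfl⟩
    simp only [g, dif_pos hex]
    congr 1
    exact ι.injective hex.choose_spec
  have hg2 : ∀ x v, g x = some v → ι v = x := by
    intro x v hx
    by_cases hex : ∃ w, ι w = x
    · simp only [g, dif_pos hex, Option.some.injEq] at hx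
      rw [← hx]; exact hex.choose_spec
    · simp only [g, dif_neg hex] at hx
      cases hx
  let L' : V → V → Finset ℕ := fun x y => match g x, g y with
    | some v, some w => L v w
    | _, _ => range k
  have hL' : ∀ x y, x ≠ y → L' x y = L' y x ∧ (L' x y).card = k := by
    intro x y hxy
    simp only [L']
    rcases hx : g x with _ | v <;> rcases hy : g y with _ | w
    · simp
    · simp
    · simp
    · have hvw : v ≠ w := by
        rintro rfl
        exact hxy ((hg2 x v hx).symm.trans (hg2 y v hy))
      exact hL v w hvw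
  obtain ⟨c, h1, h2⟩ := h L' hL'
  refine ⟨fun v w => c (ι v) (ι w), ?_, ?_⟩
  · intro v w hvw
    have h3 := h1 (ι v) (ι w) (fun h => hvw (ι.injective h))
    have h4 : L' (ι v) (ι w) = L v w := by
      simp only [L', hg]
    rw [h4] at h3
    exact h3
  · intro v a S hvS hS
    have h3 := h2 (ι v) a (S.map ι) (by simpa using hvS) (by
      intro w hw
      rw [mem_map] at hw
      obtain ⟨u, hu, rfl⟩ := hw
      exact hS u hu)
    simpa using h3

theorem goodOdd (k m : ℕ) : GoodV (Fin (2 * (k * m) + 1)) k (2 * m) := by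
  intro L hL
  exact good ∅ k m 0 0 (by simp) (by simp) (by simp) (by simp) (by simp) (by simp) L hL

theorem card_val_lt (M f : ℕ) [NeZero M] (hf : f ≤ M) :
    (univ.filter (fun d : ZMod M => d.val < f)).card = f := by
  conv_rhs => rw [← card_range f]
  refine Finset.card_bij (fun d _ => d.val) ?_ ?_ ?_
  · intro d hd
    simpa using hd
  · intro a _ b _ h
    exact ZMod.val_injective M h
  · intro b hb
    rw [mem_range] at hb
    refine ⟨(b : ZMod M), ?_, ?_⟩
    · simp only [mem_filter, mem_univ, true_and]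
      rw [ZMod.val_cast_of_lt (by omega)]
      exact hb
    · exact ZMod.val_cast_of_lt (by omega)

theorem goodEven (M k m f : ℕ) (hM : 1 ≤ M) (hfM : f ≤ M) (hfk : f ≤ k)
    (h : 2 * M = f + 2 * (k * m) + 1) : GoodV (ZMod M × Bool) k (2 * m + 1) := by
  have : NeZero M := ⟨by omega⟩
  intro L hL
  let EF : Finset ((ZMod M × Bool) × (ZMod M × Bool)) :=
    univ.filter (fun e => e.1.2 = false ∧ e.2.2 = true ∧ (e.2.1 - e.1.1).val < f)
  have hout : ∀ i : ZMod M, (EF.filter (fun e => e.1 = (i, false))).card = f := by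
    intro i
    conv_rhs => rw [← card_val_lt M f hfM]
    refine Finset.card_bij (fun e _ => e.2.1 - e.1.1) ?_ ?_ ?_
    · rintro e he
      simp only [EF, mem_filter, mem_univ, true_and] at he ⊢
      exact he.1.2.2
    · rintro ⟨⟨a, b⟩, ⟨c, d⟩⟩ he ⟨⟨a', b'⟩, ⟨c', d'⟩⟩ he' hh
      simp only [EF, mem_filter, mem_univ, true_and, Prod.mk.injEq] at he he' hh ⊢
      obtain ⟨⟨h1, h2, h3⟩, h4, h5⟩ := he
      obtain ⟨⟨g1, g2, g3⟩, g4, g5⟩ := he'
      subst h4; subst g4; subst h1; subst h2; subst g1; subst g2
      exact ⟨⟨rfl, rfl⟩, sub_left_injective hh, rfl⟩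
    · intro d hd
      simp only [mem_filter, mem_univ, true_and] at hd
      refine ⟨((i, false), (i + d, true)), ?_, ?_⟩
      · simp only [EF, mem_filter, mem_univ, true_and, and_true]
        simpa using hd
      · simp
  have hin : ∀ j : ZMod M, (EF.filter (fun e => e.2 = (j, true))).card = f := by
    intro j
    conv_rhs => rw [← card_val_lt M f hfM]
    refine Finset.card_bij (fun e _ => e.2.1 - e.1.1) ?_ ?_ ?_
    · rintro e he
      simp only [EF, mem_filter, mem_univ, true_and] at he ⊢
      exact he.1.2.2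
    · rintro ⟨⟨a, b⟩, ⟨c, d⟩⟩ he ⟨⟨a', b'⟩, ⟨c', d'⟩⟩ he' hh
      simp only [EF, mem_filter, mem_univ, true_and, Prod.mk.injEq] at he he' hh ⊢
      obtain ⟨⟨h1, h2, h3⟩, h4, h5⟩ := he
      obtain ⟨⟨g1, g2, g3⟩, g4, g5⟩ := he'
      subst h4; subst g4; subst h1; subst h2; subst g1; subst g2
      exact ⟨⟨sub_right_injective hh, rfl⟩, rfl, rfl⟩
    · intro d hd
      simp only [mem_filter, mem_univ, true_and] at hd
      refine ⟨((j - d, false), (j, true)), ?_, ?_⟩
      · simp only [EF, mem_filter, mem_univ, true_and, and_true]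
        simpa using hd
      · simp
  have hout0 : ∀ j : ZMod M, (EF.filter (fun e => e.1 = (j, true))) = ∅ := by
    intro j
    rw [Finset.eq_empty_iff_forall_notMem]
    intro e he
    simp only [EF, mem_filter, mem_univ, true_and] at he
    have := he.1.1
    rw [he.2] at this
    simp at this
  have hin0 : ∀ i : ZMod M, (EF.filter (fun e => e.2 = (i, false))) = ∅ := by
    intro i
    rw [Finset.eq_empty_iff_forall_notMem]
    intro e he
    simp only [EF, mem_filter, mem_univ, true_and] at he
    have := he.1.2.1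
    rw [he.2] at this
    simp at this
  refine good EF k m 1 f ?_ ?_ ?_ ?_ (by omega) ?_ L hL
  · rintro ⟨i, b⟩ h
    simp only [EF, mem_filter, mem_univ, true_and] at h
    rw [h.1] at h
    simp at h
  · rintro ⟨i, b⟩ ⟨j, b'⟩ h h'
    simp only [EF, mem_filter, mem_univ, true_and] at h h'
    rw [h.1] at h'
    simp at h'
  · rintro ⟨i, b⟩
    cases b
    · rw [hout, hin0]; simp
    · rw [hin, hout0]; simp
  · rw [Fintype.card_prod, ZMod.card, Fintype.card_bool]
    omega
  · rintro ⟨i, b⟩
    cases b
    · right; exact hin0 i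
    · left; exact hout0 i

/-- The largest order in question. -/
def ord (r k : ℕ) : ℕ := if Even r ∧ Even k then k * (r - 1) else k * (r - 1) + 1

theorem good_all (r k : ℕ) (hr : 1 ≤ r) (hr2 : r ≠ 2) (hk : 1 ≤ k) (n : ℕ) (hn : n ≤ ord r k) :
    GoodV (Fin n) k (r - 1) := by
  rcases Nat.even_or_odd r with hev | hod
  · obtain ⟨t, ht⟩ := hev
    -- r = 2 t, t ≥ 2, m = t - 1
    obtain ⟨m, hm, hm1⟩ : ∃ m, r - 1 = 2 * m + 1 ∧ 1 ≤ m := ⟨t - 1, by omega, by omega⟩
    rcases Nat.even_or_odd k with hke | hko
    · have hord : ord r k = k * (r - 1) := by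
        unfold ord; rw [if_pos ⟨⟨t, ht⟩, hke⟩]
      obtain ⟨u, hu⟩ := hke
      have hu' : k = 2 * u := by omega
      rw [hord, hm] at hn
      rw [hm]
      have h2M : 2 * (u * (2 * m + 1)) = (k - 1) + 2 * (k * m) + 1 := by
        subst hu'
        have : 2 * (u * (2 * m + 1)) = 2 * u + 2 * (2 * u * m) := by ring
        omega
      have hMle : k ≤ u * (2 * m + 1) := by
        subst hu'
        have : 2 * u ≤ u * (2 * m + 1) := by
          rw [mul_comm 2 u]; exact Nat.mul_le_mul_left _ (by omega)
        exact this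
      have hg := goodEven (u * (2 * m + 1)) k m (k - 1) (by omega) (by omega) (by omega) h2M
      refine GoodV.embed hg ?_
      have : NeZero (u * (2 * m + 1)) := ⟨by omega⟩
      have hcard : Fintype.card (Fin n) ≤ Fintype.card (ZMod (u * (2 * m + 1)) × Bool) := by
        rw [Fintype.card_fin, Fintype.card_prod, ZMod.card, Fintype.card_bool]
        have : k * (2 * m + 1) = u * (2 * m + 1) * 2 := by subst hu'; ring
        omega
      exact (Function.Embedding.nonempty_of_card_le hcard).some
    · have hord : ord r k = k * (r - 1) + 1 := by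
        unfold ord
        rw [if_neg]
        rintro ⟨_, h⟩
        exact (Nat.not_even_iff_odd.2 hko) h
      obtain ⟨u, hu⟩ := hko
      rw [hord, hm] at hn
      rw [hm]
      -- N = k (2 m + 1) + 1 = 2 M
      obtain ⟨M, hMd⟩ : ∃ M, k * (2 * m + 1) + 1 = 2 * M := by
        refine ⟨(2 * u + 1) * m + u + 1, ?_⟩
        subst hu
        ring
      have h2 : k * (2 * m + 1) = 2 * (k * m) + k := by ring
      have h3 : k ≤ k * m := Nat.le_mul_of_pos_right _ hm1
      have hg := goodEven M k m k (by omega) (by omega) le_rfl (by omega)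
      refine GoodV.embed hg ?_
      have : NeZero M := ⟨by omega⟩
      have hcard : Fintype.card (Fin n) ≤ Fintype.card (ZMod M × Bool) := by
        rw [Fintype.card_fin, Fintype.card_prod, ZMod.card, Fintype.card_bool]
        omega
      exact (Function.Embedding.nonempty_of_card_le hcard).some
  · obtain ⟨m, hm⟩ := hod
    have hord : ord r k = k * (r - 1) + 1 := by
      unfold ord
      rw [if_neg]
      rintro ⟨h, _⟩
      exact (Nat.not_even_iff_odd.2 ⟨m, hm⟩) h
    have hm' : r - 1 = 2 * m := by omega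
    rw [hord, hm'] at hn
    rw [hm']
    refine GoodV.embed (goodOdd k m) (Fin.castLEEmb ?_)
    have : k * (2 * m) = 2 * (k * m) := by ring
    omega

end Pool.Agent.TH738.LR
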